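import Mathlib

set_option autoImplicit false

open Matrix
open scoped ComplexOrder

namespace Pool.Agent.Results.MP_26c808_an.NotMajorized

variable {n : ℕ}

/-- `|X| = (X* X)^{1/2}`, by functional calculus. -/
noncomputable def absM (X : Matrix (Fin n) (Fin n) ℂ) : Matrix (Fin n) (Fin n) ℂ :=
  cfc Real.sqrt (Xᴴ * X)

/-- `|X|^p`, by functional calculus of `|X|`. -/
noncomputable def absPow (X : Matrix (Fin n) (Fin n) ℂ) (p : ℝ) : Matrix (Fin n) (Fin n) ℂ :=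
  cfc (fun t : ℝ => t ^ p) (absM X)

/-- The sum of the `k` largest eigenvalues of a Hermitian matrix (Mathlib's `eigenvalues₀` lists
them in decreasing order, indexed by `0, …, n - 1`). -/
noncomputable def topSum {H : Matrix (Fin n) (Fin n) ℂ} (hH : H.IsHermitian) (k : ℕ) : ℝ :=
  ∑ i ∈ Finset.univ.filter (fun i : Fin (Fintype.card (Fin n)) => (i : ℕ) < k),
    hH.eigenvalues₀ i

/-- `λ(H)` majorizes `λ(K)`: the sum of the `k` largest eigenvalues of `H` is at least that of `K`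
for `1 ≤ k ≤ n - 1`, with equality for `k = n`. -/
def Majorizes {H K : Matrix (Fin n) (Fin n) ℂ} (hH : H.IsHermitian) (hK : K.IsHermitian) : Prop :=
  (∀ k, 1 ≤ k → k ≤ n - 1 → topSum hK k ≤ topSum hH k) ∧ topSum hH n = topSum hK n

/-- The statement of Q1: `λ(A² + |BA|^p) ≻ λ(A² + |AB|^p)` for all `n ≥ 1`, all positive
semidefinite `A, B` and all real `p > 0`. -/
def Q1 : Prop :=
  ∀ n : ℕ, 1 ≤ n → ∀ (A B : Matrix (Fin n) (Fin n) ℂ) (p : ℝ),
    A.PosSemidef → B.PosSemidef → 0 < p →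
    ∀ (h₁ : (A ^ 2 + absPow (B * A) p).IsHermitian) (h₂ : (A ^ 2 + absPow (A * B) p).IsHermitian),
      Majorizes h₁ h₂

lemma contOn {Y : Matrix (Fin n) (Fin n) ℂ} (f : ℝ → ℝ) : ContinuousOn f (spectrum ℝ Y) := by
  have h := Matrix.finite_real_spectrum (A := Y)
  exact h.continuousOn f

lemma cfc_posSemidef {Y : Matrix (Fin n) (Fin n) ℂ} (hY : Y.IsHermitian) (f : ℝ → ℝ)
    (hf : ∀ i, 0 ≤ f (hY.eigenvalues i)) : (cfc f Y).PosSemidef := by
  rw [hY.cfc_eq, Matrix.IsHermitian.cfc, Unitary.conjStarAlgAut_apply]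
  have hd : (diagonal (RCLike.ofReal ∘ f ∘ hY.eigenvalues) : Matrix (Fin n) (Fin n) ℂ).PosSemidef := by
    refine PosSemidef.diagonal fun i => ?_
    simpa using hf i
  exact hd.mul_mul_conjTranspose_same _

lemma absPow_eq (X : Matrix (Fin n) (Fin n) ℂ) (p : ℝ) :
    absPow X p = cfc (fun t : ℝ => t ^ (p / 2)) (Xᴴ * X) := by
  have hP := Matrix.posSemidef_conjTranspose_mul_self X
  have hY : IsSelfAdjoint (Xᴴ * X) := hP.1
  unfold absPow absM
  rw [← cfc_comp' (fun t : ℝ => t ^ p) Real.sqrt (Xᴴ * X) (Set.Finite.continuousOn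
    ((Matrix.finite_real_spectrum (A := Xᴴ * X)).image _) _) (contOn _) hY]
  refine cfc_congr ?_
  intro t ht
  have ht0 : 0 ≤ t := by
    rw [hP.1.spectrum_real_eq_range_eigenvalues] at ht
    obtain ⟨i, rfl⟩ := ht
    exact hP.eigenvalues_nonneg i
  show Real.sqrt t ^ p = t ^ (p/2)
  rw [Real.sqrt_eq_rpow, ← Real.rpow_mul ht0]
  congr 1
  ring

/-- If `μ - H` is positive semidefinite, all eigenvalues of `H` are at most `μ`. -/
lemma eig_le {H : Matrix (Fin n) (Fin n) ℂ} (hH : H.IsHermitian) (μ : ℝ)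
    (h : ((μ : ℂ) • (1 : Matrix (Fin n) (Fin n) ℂ) - H).PosSemidef) (i : Fin n) :
    hH.eigenvalues i ≤ μ := by
  set v : Fin n → ℂ := ⇑(hH.eigenvectorBasis i) with hv
  have h1 : H *ᵥ v = (hH.eigenvalues i : ℂ) • v := by
    have := hH.mulVec_eigenvectorBasis i
    simpa using this
  have h2 : star v ⬝ᵥ v = 1 := by
    have := hH.eigenvectorBasis.orthonormal.1 i
    have h3 : (inner ℂ (hH.eigenvectorBasis i) (hH.eigenvectorBasis i) : ℂ) = 1 := by
      rw [inner_self_eq_norm_sq_to_K, this]; simp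
    rw [EuclideanSpace.inner_eq_star_dotProduct] at h3
    rw [dotProduct_comm]
    exact h3
  have h4 := h.dotProduct_mulVec_nonneg v
  rw [sub_mulVec, smul_mulVec, one_mulVec, h1, dotProduct_sub, dotProduct_smul, dotProduct_smul,
    h2] at h4
  simp only [smul_eq_mul, mul_one] at h4
  have h5 : (0:ℂ) ≤ ((μ - hH.eigenvalues i : ℝ) : ℂ) := by push_cast; exact h4
  have h6 : (0:ℝ) ≤ μ - hH.eigenvalues i := by exact_mod_cast h5
  linarith

lemma algMap (μ : ℝ) : algebraMap ℝ (Matrix (Fin n) (Fin n) ℂ) μ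
    = (μ : ℂ) • (1 : Matrix (Fin n) (Fin n) ℂ) := by
  ext i j
  simp [Matrix.algebraMap_matrix_apply, Matrix.one_apply, Matrix.smul_apply]

/-- If all eigenvalues of `H` are at most `μ`, then `μ - H` is positive semidefinite. -/
lemma psd_of_eig_le {H : Matrix (Fin n) (Fin n) ℂ} (hH : H.IsHermitian) (μ : ℝ)
    (h : ∀ i, hH.eigenvalues i ≤ μ) :
    ((μ : ℂ) • (1 : Matrix (Fin n) (Fin n) ℂ) - H).PosSemidef := by
  have hsa : IsSelfAdjoint H := hH
  have h1 : cfc (fun t : ℝ => μ - t) H = (μ : ℂ) • (1 : Matrix (Fin n) (Fin n) ℂ) - H := by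
    rw [cfc_sub (fun _ : ℝ => μ) (fun t : ℝ => t) H (contOn _) (contOn _), cfc_id' ℝ H hsa,
      cfc_const μ H hsa, algMap]
  rw [← h1]
  exact cfc_posSemidef hH _ fun i => by linarith [h i]

/-- The three eigenvalues in decreasing order. -/
lemma topSum_one {H : Matrix (Fin 3) (Fin 3) ℂ} (hH : H.IsHermitian) :
    topSum hH 1 = hH.eigenvalues₀ ⟨0, by simp⟩ := by
  unfold topSum
  have : (Finset.univ.filter (fun i : Fin (Fintype.card (Fin 3)) => (i : ℕ) < 1))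
      = {⟨0, by simp⟩} := by
    ext i
    simp only [Finset.mem_filter, Finset.mem_univ, true_and, Finset.mem_singleton]
    constructor
    · intro h
      apply Fin.ext
      simp only
      omega
    · intro h
      rw [h]
      simp
  rw [this, Finset.sum_singleton]

lemma eigs_le_top {H : Matrix (Fin 3) (Fin 3) ℂ} (hH : H.IsHermitian) (i : Fin 3) :
    hH.eigenvalues i ≤ topSum hH 1 := by
  rw [topSum_one]
  unfold Matrix.IsHermitian.eigenvalues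
  apply hH.eigenvalues₀_antitone
  simp

lemma top_le {H : Matrix (Fin 3) (Fin 3) ℂ} (hH : H.IsHermitian) (μ : ℝ)
    (h : ((μ : ℂ) • (1 : Matrix (Fin 3) (Fin 3) ℂ) - H).PosSemidef) :
    topSum hH 1 ≤ μ := by
  rw [topSum_one]
  have h1 := eig_le hH μ h
  have h2 := h1 ((Fintype.equivOfCardEq (Fintype.card_fin _)) ⟨0, by simp⟩)
  unfold Matrix.IsHermitian.eigenvalues at h2
  simpa using h2

lemma le_top {H : Matrix (Fin 3) (Fin 3) ℂ} (hH : H.IsHermitian) (μ : ℝ) (v : Fin 3 → ℂ)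
    (c : ℝ) (hc : 0 < c) (hv : star v ⬝ᵥ v = (c : ℂ))
    (h : (μ * c : ℝ) ≤ (star v ⬝ᵥ (H *ᵥ v)).re) : μ ≤ topSum hH 1 := by
  have h1 := psd_of_eig_le hH (topSum hH 1) (eigs_le_top hH)
  have h2 := h1.dotProduct_mulVec_nonneg v
  rw [sub_mulVec, smul_mulVec, one_mulVec, dotProduct_sub, dotProduct_smul, hv] at h2
  have h3 := (Complex.le_def.1 h2).1
  simp only [smul_eq_mul, Complex.zero_re, Complex.sub_re, Complex.mul_re, Complex.ofReal_re,
    Complex.ofReal_im, mul_zero, sub_zero] at h3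
  nlinarith

/-- The matrix `A`. -/
def A0 : Matrix (Fin 3) (Fin 3) ℂ := !![2, -1, 0; -1, 2, 2; 0, 2, 3]

/-- The matrix `B`. -/
noncomputable def B0 : Matrix (Fin 3) (Fin 3) ℂ := !![1, 1, -1/2; 1, 1, -1/2; -1/2, -1/2, 1/2]

lemma psd_ldl (L : Matrix (Fin 3) (Fin 3) ℂ) (d : Fin 3 → ℝ) (hd : ∀ i, 0 ≤ d i) :
    (Lᴴ * diagonal (fun i => (d i : ℂ)) * L).PosSemidef := by
  refine PosSemidef.conjTranspose_mul_mul_same (PosSemidef.diagonal fun i => ?_) L
  simpa using hd i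

lemma A0_psd : A0.PosSemidef := by
  have h := psd_ldl !![1, -1/2, 0; 0, 1, 4/3; 0, 0, 1] ![2, 3/2, 1/3]
    (by intro i; fin_cases i <;> norm_num)
  convert h using 1
  ext i j
  fin_cases i <;> fin_cases j <;>
    simp [A0, Matrix.mul_apply, Fin.sum_univ_three, Matrix.diagonal_apply, map_ofNat] <;> norm_num

lemma B0_psd : B0.PosSemidef := by
  have h := psd_ldl !![1, 1, -1/2; 0, 0, 1; 0, 0, 0] ![1, 1/4, 0]
    (by intro i; fin_cases i <;> norm_num)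
  convert h using 1
  ext i j
  fin_cases i <;> fin_cases j <;>
    simp [B0, Matrix.mul_apply, Fin.sum_univ_three, Matrix.diagonal_apply, map_ofNat] <;> norm_num

/-- `|B A|²`. -/
noncomputable def Y0 : Matrix (Fin 3) (Fin 3) ℂ := !![9/4, -1/4, 3/4; -1/4, 1/4, 1/4; 3/4, 1/4, 3/4]

/-- `|A B|²`. -/
noncomputable def Z0 : Matrix (Fin 3) (Fin 3) ℂ := !![5/4, 5/4, -1/4; 5/4, 5/4, -1/4; -1/4, -1/4, 3/4]

lemma Y0_eq : (B0 * A0)ᴴ * (B0 * A0) = Y0 := by
  ext i j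
  fin_cases i <;> fin_cases j <;>
    simp [A0, B0, Y0, Matrix.mul_apply, Fin.sum_univ_three, map_ofNat] <;> norm_num

lemma Z0_eq : (A0 * B0)ᴴ * (A0 * B0) = Z0 := by
  ext i j
  fin_cases i <;> fin_cases j <;>
    simp [A0, B0, Z0, Matrix.mul_apply, Fin.sum_univ_three, map_ofNat] <;> norm_num

lemma A0_sq : A0 ^ 2 = !![5, -4, -2; -4, 9, 10; -2, 10, 13] := by
  rw [pow_two]
  ext i j
  fin_cases i <;> fin_cases j <;>
    simp [A0, Matrix.mul_apply, Fin.sum_univ_three] <;> norm_num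

lemma Y0_cube : Y0 ^ 3 = !![931/64, -63/64, 371/64; -63/64, 11/64, -15/64; 371/64, -15/64, 163/64] := by
  rw [pow_succ, pow_two]
  ext i j
  fin_cases i <;> fin_cases j <;>
    simp [Y0, Matrix.mul_apply, Fin.sum_univ_three] <;> norm_num

lemma Z0_cube : Z0 ^ 3 = !![523/64, 523/64, -141/64; 523/64, 523/64, -141/64; -141/64, -141/64, 59/64] := by
  rw [pow_succ, pow_two]
  ext i j
  fin_cases i <;> fin_cases j <;>
    simp [Z0, Matrix.mul_apply, Fin.sum_univ_three] <;> norm_num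

lemma S_psd : (((23 : ℝ) : ℂ) • (1 : Matrix (Fin 3) (Fin 3) ℂ) - (A0 ^ 2 + Y0 ^ 3)).PosSemidef := by
  have h := psd_ldl !![1, 319/221, -243/221; 0, 1, -947/1466; 0, 0, 1]
    ![221/64, 1466/221, 374/733] (by intro i; fin_cases i <;> norm_num)
  convert h using 1
  rw [A0_sq, Y0_cube]
  ext i j
  fin_cases i <;> fin_cases j <;>
    simp [Matrix.mul_apply, Fin.sum_univ_three, Matrix.diagonal_apply, map_ofNat] <;> norm_num

/-- The test vector. -/
def v0 : Fin 3 → ℂ := ![1, 11, 9]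

lemma v0_norm : star v0 ⬝ᵥ v0 = ((203 : ℝ) : ℂ) := by
  simp [v0, dotProduct, Fin.sum_univ_three, map_ofNat]
  norm_num

lemma v0_T : star v0 ⬝ᵥ ((A0 ^ 2 + Z0 ^ 3) *ᵥ v0) = ((305827/64 : ℝ) : ℂ) := by
  rw [A0_sq, Z0_cube]
  simp [v0, dotProduct, mulVec, Fin.sum_univ_three, map_ofNat]
  norm_num

lemma Y0_herm : Y0.IsHermitian := by
  rw [← Y0_eq]; exact (Matrix.posSemidef_conjTranspose_mul_self _).1

lemma Z0_herm : Z0.IsHermitian := by
  rw [← Z0_eq]; exact (Matrix.posSemidef_conjTranspose_mul_self _).1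

lemma Y0_nonneg (i : Fin 3) : 0 ≤ Y0_herm.eigenvalues i := by
  have h : Y0.PosSemidef := by rw [← Y0_eq]; exact Matrix.posSemidef_conjTranspose_mul_self _
  exact h.eigenvalues_nonneg i

lemma Z0_nonneg (i : Fin 3) : 0 ≤ Z0_herm.eigenvalues i := by
  have h : Z0.PosSemidef := by rw [← Z0_eq]; exact Matrix.posSemidef_conjTranspose_mul_self _
  exact h.eigenvalues_nonneg i

lemma upper (p : ℝ)
    (hp : ∀ i, |(Y0_herm.eigenvalues i) ^ (p / 2) - (Y0_herm.eigenvalues i) ^ 3| ≤ 1 / 5)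
    (h₁ : (A0 ^ 2 + absPow (B0 * A0) p).IsHermitian) : topSum h₁ 1 ≤ 23.2 := by
  apply top_le
  have hsa : IsSelfAdjoint Y0 := Y0_herm
  have h1 : cfc (fun t : ℝ => ((1 / 5 : ℝ) + t ^ 3) - t ^ (p / 2)) Y0
      = ((1 / 5 : ℝ) : ℂ) • (1 : Matrix (Fin 3) (Fin 3) ℂ) + Y0 ^ 3
        - cfc (fun t : ℝ => t ^ (p / 2)) Y0 := by
    rw [cfc_sub (fun t : ℝ => (1 / 5 : ℝ) + t ^ 3) (fun t : ℝ => t ^ (p / 2)) Y0 (contOn _)
      (contOn _), cfc_const_add (1 / 5 : ℝ) (fun t : ℝ => t ^ 3) Y0 (contOn _) hsa,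
      cfc_pow_id (R := ℝ) Y0 3 hsa, algMap]
  have h2 : (cfc (fun t : ℝ => ((1 / 5 : ℝ) + t ^ 3) - t ^ (p / 2)) Y0).PosSemidef := by
    refine cfc_posSemidef Y0_herm _ fun i => ?_
    have := (abs_le.1 (hp i)).2
    linarith
  have h3 := S_psd.add h2
  rw [h1] at h3
  have h4 : absPow (B0 * A0) p = cfc (fun t : ℝ => t ^ (p / 2)) Y0 := by
    rw [absPow_eq, Y0_eq]
  rw [h4]
  convert h3 using 1
  have h5 : (((23.2 : ℝ) : ℂ)) = ((23 : ℝ) : ℂ) + ((1 / 5 : ℝ) : ℂ) := by push_cast; norm_num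
  rw [h5, add_smul]
  abel

lemma lower (p : ℝ)
    (hp : ∀ i, |(Z0_herm.eigenvalues i) ^ (p / 2) - (Z0_herm.eigenvalues i) ^ 3| ≤ 1 / 5)
    (h₂ : (A0 ^ 2 + absPow (A0 * B0) p).IsHermitian) : 23.3 ≤ topSum h₂ 1 := by
  refine le_top h₂ 23.3 v0 203 (by norm_num) v0_norm ?_
  have hsa : IsSelfAdjoint Z0 := Z0_herm
  have h1 : cfc (fun t : ℝ => ((1 / 5 : ℝ) + t ^ (p / 2)) - t ^ 3) Z0
      = ((1 / 5 : ℝ) : ℂ) • (1 : Matrix (Fin 3) (Fin 3) ℂ) + cfc (fun t : ℝ => t ^ (p / 2)) Z0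
        - Z0 ^ 3 := by
    rw [cfc_sub (fun t : ℝ => (1 / 5 : ℝ) + t ^ (p / 2)) (fun t : ℝ => t ^ 3) Z0 (contOn _)
      (contOn _), cfc_const_add (1 / 5 : ℝ) (fun t : ℝ => t ^ (p / 2)) Z0 (contOn _) hsa,
      cfc_pow_id (R := ℝ) Z0 3 hsa, algMap]
  have h2 : (cfc (fun t : ℝ => ((1 / 5 : ℝ) + t ^ (p / 2)) - t ^ 3) Z0).PosSemidef := by
    refine cfc_posSemidef Z0_herm _ fun i => ?_
    have := (abs_le.1 (hp i)).1
    linarith
  rw [h1] at h2
  have h3 := h2.dotProduct_mulVec_nonneg v0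
  have h4 : absPow (A0 * B0) p = cfc (fun t : ℝ => t ^ (p / 2)) Z0 := by
    rw [absPow_eq, Z0_eq]
  rw [h4]
  rw [sub_mulVec, add_mulVec, dotProduct_sub, dotProduct_add, smul_mulVec, one_mulVec,
    dotProduct_smul, v0_norm] at h3
  have h5 := v0_T
  rw [add_mulVec, dotProduct_add] at h5 ⊢
  have h6 := (Complex.le_def.1 h3).1
  have h7 := congrArg Complex.re h5
  simp only [smul_eq_mul, Complex.zero_re, Complex.sub_re, Complex.add_re, Complex.mul_re,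
    Complex.ofReal_re, Complex.ofReal_im, mul_zero, sub_zero] at h6 h7 ⊢
  linarith

lemma cont_aux (y : ℝ) (hy : 0 ≤ y) : ∀ᶠ p : ℝ in nhds 6, |y ^ (p / 2) - y ^ 3| ≤ 1 / 5 := by
  have h1 : ContinuousAt (fun x : ℝ => y ^ x) ((6 : ℝ) / 2) :=
    Real.continuousAt_const_rpow' (by norm_num)
  have h2 : ContinuousAt (fun p : ℝ => p / 2) 6 := by fun_prop
  have h3 : ContinuousAt (fun p : ℝ => y ^ (p / 2)) 6 :=
    ContinuousAt.comp (g := fun x : ℝ => y ^ x) (f := fun p : ℝ => p / 2) h1 h2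
  have h4 : ContinuousAt (fun p : ℝ => |y ^ (p / 2) - y ^ 3|) 6 := (h3.sub continuousAt_const).abs
  have h5 : |y ^ ((6 : ℝ) / 2) - y ^ 3| < 1 / 5 := by
    have : y ^ ((6 : ℝ) / 2) = y ^ 3 := by
      rw [show (6 : ℝ) / 2 = ((3 : ℕ) : ℝ) by norm_num, Real.rpow_natCast]
    rw [this]; norm_num
  exact (h4.eventually (gt_mem_nhds h5)).mono fun p hp => le_of_lt hp

theorem near_six : ∃ ε : ℝ, 0 < ε ∧ ∀ p : ℝ, |p - 6| < ε →
    ∀ (h₁ : (A0 ^ 2 + absPow (B0 * A0) p).IsHermitian)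
      (h₂ : (A0 ^ 2 + absPow (A0 * B0) p).IsHermitian), topSum h₁ 1 < topSum h₂ 1 := by
  have h1 : ∀ᶠ p : ℝ in nhds 6,
      ∀ i, |(Y0_herm.eigenvalues i) ^ (p / 2) - (Y0_herm.eigenvalues i) ^ 3| ≤ 1 / 5 := by
    rw [Filter.eventually_all]
    exact fun i => cont_aux _ (Y0_nonneg i)
  have h2 : ∀ᶠ p : ℝ in nhds 6,
      ∀ i, |(Z0_herm.eigenvalues i) ^ (p / 2) - (Z0_herm.eigenvalues i) ^ 3| ≤ 1 / 5 := by
    rw [Filter.eventually_all]
    exact fun i => cont_aux _ (Z0_nonneg i)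
  obtain ⟨ε, hε, h⟩ := Metric.eventually_nhds_iff.1 (h1.and h2)
  refine ⟨ε, hε, fun p hp h₁ h₂ => ?_⟩
  have h3 := h (y := p) (by rw [Real.dist_eq]; exact hp)
  have h4 := upper p h3.1 h₁
  have h5 := lower p h3.2 h₂
  linarith

lemma absPow_herm (X : Matrix (Fin n) (Fin n) ℂ) (p : ℝ) : (absPow X p).IsHermitian :=
  cfc_predicate (R := ℝ) _ _

/-- **Q1 fails.**  With explicit `3 × 3` matrices `A` (positive definite) and `B` (positive
semidefinite), for all `p` in a neighbourhood of `6` the largest eigenvalue of `A² + |AB|^p`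
exceeds the largest eigenvalue of `A² + |BA|^p`. -/
theorem result : ¬ Q1 ∧
    ∃ A B : Matrix (Fin 3) (Fin 3) ℂ, A.PosSemidef ∧ B.PosSemidef ∧
      ∃ ε : ℝ, 0 < ε ∧ ∀ p : ℝ, |p - 6| < ε →
        ∃ (h₁ : (A ^ 2 + absPow (B * A) p).IsHermitian)
          (h₂ : (A ^ 2 + absPow (A * B) p).IsHermitian),
          topSum h₁ 1 < topSum h₂ 1 ∧ ¬ Majorizes h₁ h₂ := by
  obtain ⟨ε, hε, h⟩ := near_six
  have hA : (A0 ^ 2).IsHermitian := A0_psd.1.pow 2
  refine ⟨?_, A0, B0, A0_psd, B0_psd, ε, hε, ?_⟩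
  · intro hQ
    have h₁ : (A0 ^ 2 + absPow (B0 * A0) 6).IsHermitian := hA.add (absPow_herm _ _)
    have h₂ : (A0 ^ 2 + absPow (A0 * B0) 6).IsHermitian := hA.add (absPow_herm _ _)
    have h3 := hQ 3 (by norm_num) A0 B0 6 A0_psd B0_psd (by norm_num) h₁ h₂
    have h4 := h3.1 1 le_rfl (by norm_num)
    have h5 := h 6 (by simpa using hε) h₁ h₂
    linarith
  · intro p hp
    have h₁ : (A0 ^ 2 + absPow (B0 * A0) p).IsHermitian := hA.add (absPow_herm _ _)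
    have h₂ : (A0 ^ 2 + absPow (A0 * B0) p).IsHermitian := hA.add (absPow_herm _ _)
    refine ⟨h₁, h₂, h p hp h₁ h₂, fun h3 => ?_⟩
    have h4 := h3.1 1 le_rfl (by norm_num)
    have h5 := h p hp h₁ h₂
    linarith

end Pool.Agent.Results.MP_26c808_an.NotMajorized
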